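import Pool.Agent.BOX.StmtsN

/-!
# Squad BOX, row DIN: almost every box satisfies the Diophantine condition
-/

namespace Pool.Agent.BOX.H91

open Set Filter Topology MeasureTheory
open scoped ENNReal

/-- One variable: the slice has small diameter. -/
theorem slice (R ε s : ℝ) (m : ℤ) (hR : 0 < R) (hm : m ≠ 0) :
    volume {x : ℝ | (1 / R ≤ x ∧ x ≤ R) ∧ |(m : ℝ) / x ^ 2 + s| < ε} ≤
      ENNReal.ofReal (ε * R ^ 3) := by
  refine (Real.volume_le_diam _).trans (Metric.ediam_le ?_)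
  have key : ∀ x y : ℝ, x ≤ y → (1 / R ≤ x ∧ x ≤ R) → |(m : ℝ) / x ^ 2 + s| < ε →
      (1 / R ≤ y ∧ y ≤ R) → |(m : ℝ) / y ^ 2 + s| < ε → y - x ≤ ε * R ^ 3 := by
    intro x y hxy hx1 hx2 hy1 hy2
    have hx0 : 0 < x := lt_of_lt_of_le (by positivity) hx1.1
    have hy0 : 0 < y := lt_of_lt_of_le (by positivity) hy1.1
    have hε : 0 < ε := lt_of_le_of_lt (abs_nonneg _) hx2
    have h1 : |(m : ℝ) / x ^ 2 - (m : ℝ) / y ^ 2| < 2 * ε := by
      have := abs_sub ((m : ℝ) / x ^ 2 + s) ((m : ℝ) / y ^ 2 + s)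
      have e : (m : ℝ) / x ^ 2 + s - ((m : ℝ) / y ^ 2 + s) = (m : ℝ) / x ^ 2 - (m : ℝ) / y ^ 2 := by
        ring
      rw [e] at this
      linarith
    have h2 : (m : ℝ) / x ^ 2 - (m : ℝ) / y ^ 2 =
        (m : ℝ) * ((y - x) * (1 / (x * y ^ 2) + 1 / (x ^ 2 * y))) := by
      field_simp
      ring
    have h3 : (1 : ℝ) ≤ |(m : ℝ)| := by
      have : (1 : ℤ) ≤ |m| := Int.one_le_abs hm
      exact_mod_cast this
    have h4 : 1 / R ^ 3 ≤ 1 / (x * y ^ 2) := by
      refine one_div_le_one_div_of_le (by positivity) ?_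
      calc x * y ^ 2 ≤ R * R ^ 2 :=
            mul_le_mul hx1.2 (pow_le_pow_left₀ hy0.le hy1.2 2) (by positivity) hR.le
        _ = R ^ 3 := by ring
    have h5 : 1 / R ^ 3 ≤ 1 / (x ^ 2 * y) := by
      refine one_div_le_one_div_of_le (by positivity) ?_
      calc x ^ 2 * y ≤ R ^ 2 * R :=
            mul_le_mul (pow_le_pow_left₀ hx0.le hx1.2 2) hy1.2 hy0.le (by positivity)
        _ = R ^ 3 := by ring
    have h6 : 0 ≤ y - x := by linarith
    have h7 : (y - x) * (2 * (1 / R ^ 3)) ≤ |(m : ℝ) / x ^ 2 - (m : ℝ) / y ^ 2| := by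
      rw [h2, abs_mul, abs_of_nonneg (mul_nonneg h6 (by positivity))]
      have h8 : (y - x) * (2 * (1 / R ^ 3)) ≤ (y - x) * (1 / (x * y ^ 2) + 1 / (x ^ 2 * y)) :=
        mul_le_mul_of_nonneg_left (by linarith) h6
      have h9 : 0 ≤ (y - x) * (1 / (x * y ^ 2) + 1 / (x ^ 2 * y)) := mul_nonneg h6 (by positivity)
      nlinarith
    have h10 : (y - x) * (1 / R ^ 3) < ε := by nlinarith
    have h11 : (y - x) * (1 / R ^ 3) * R ^ 3 ≤ ε * R ^ 3 :=
      mul_le_mul_of_nonneg_right h10.le (by positivity)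
    have h12 : (y - x) * (1 / R ^ 3) * R ^ 3 = y - x := by
      field_simp
    linarith
  rintro x ⟨hx1, hx2⟩ y ⟨hy1, hy2⟩
  rw [edist_dist, Real.dist_eq]
  refine ENNReal.ofReal_le_ofReal ?_
  rcases le_total x y with h | h
  · rw [abs_sub_comm, abs_of_nonneg (by linarith)]
    exact key x y h hx1 hx2 hy1 hy2
  · rw [abs_of_nonneg (by linarith)]
    exact key y x h hy1 hy2 hx1 hx2

/-- The exceptional set of one relation. -/
def Ex (N : ℕ) (R ε : ℝ) (m : Fin N → ℤ) : Set (Fin N → ℝ) :=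
  {l | (∀ j, 1 / R ≤ l j ∧ l j ≤ R) ∧ |∑ j, (m j : ℝ) / l j ^ 2| < ε}

theorem Ex_vol (n : ℕ) (R ε : ℝ) (m : Fin (n + 1) → ℤ) (hR : 1 ≤ R) (hm : m ≠ 0) :
    volume (Ex (n + 1) R ε m) ≤ ENNReal.ofReal (ε * R ^ 3) * ENNReal.ofReal (R ^ n) := by
  obtain ⟨i, hi⟩ : ∃ i, m i ≠ 0 := by
    by_contra h
    push Not at h
    exact hm (funext h)
  have hR0 : 0 < R := by linarith
  obtain ⟨B, hBdef⟩ : ∃ B : Set (ℝ × (Fin n → ℝ)), B = {p | (1 / R ≤ p.1 ∧ p.1 ≤ R) ∧
    (∀ j, 1 / R ≤ p.2 j ∧ p.2 j ≤ R) ∧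
    |(m i : ℝ) / p.1 ^ 2 + ∑ j, (m (i.succAbove j) : ℝ) / p.2 j ^ 2| < ε} := ⟨_, rfl⟩
  have hB : MeasurableSet B := by
    rw [hBdef]
    have c1 : Measurable fun p : ℝ × (Fin n → ℝ) => p.1 := measurable_fst
    have c2 : ∀ j, Measurable fun p : ℝ × (Fin n → ℝ) => p.2 j := fun j =>
      (measurable_pi_apply j).comp measurable_snd
    have m1 : MeasurableSet {p : ℝ × (Fin n → ℝ) | 1 / R ≤ p.1 ∧ p.1 ≤ R} :=
      (measurableSet_le measurable_const c1).inter (measurableSet_le c1 measurable_const)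
    have m2 : MeasurableSet {p : ℝ × (Fin n → ℝ) | ∀ j, 1 / R ≤ p.2 j ∧ p.2 j ≤ R} := by
      have : {p : ℝ × (Fin n → ℝ) | ∀ j, 1 / R ≤ p.2 j ∧ p.2 j ≤ R} =
          ⋂ j, {p : ℝ × (Fin n → ℝ) | 1 / R ≤ p.2 j ∧ p.2 j ≤ R} := by
        ext p
        simp only [mem_ofPred_eq, mem_iInter]
      rw [this]
      exact MeasurableSet.iInter fun j =>
        (measurableSet_le measurable_const (c2 j)).inter (measurableSet_le (c2 j) measurable_const)
    have m3 : MeasurableSet {p : ℝ × (Fin n → ℝ) |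
        |(m i : ℝ) / p.1 ^ 2 + ∑ j, (m (i.succAbove j) : ℝ) / p.2 j ^ 2| < ε} := by
      refine measurableSet_lt ?_ measurable_const
      refine Measurable.abs ?_
      refine (measurable_const.div (c1.pow_const 2)).add ?_
      exact Finset.measurable_sum _ fun j _ => measurable_const.div ((c2 j).pow_const 2)
    exact m1.inter (m2.inter m3)
  have hpre : Ex (n + 1) R ε m =
      (MeasurableEquiv.piFinSuccAbove (fun _ : Fin (n + 1) => ℝ) i) ⁻¹' B := by
    ext l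
    rw [hBdef]
    simp only [Ex, mem_ofPred_eq, mem_preimage, MeasurableEquiv.piFinSuccAbove_apply,
      Fin.insertNthEquiv_symm_apply, Fin.removeNth]
    rw [Fin.sum_univ_succAbove _ i]
    constructor
    · rintro ⟨h1, h2⟩
      exact ⟨h1 i, fun j => h1 _, h2⟩
    · rintro ⟨h1, h2, h3⟩
      refine ⟨fun j => ?_, h3⟩
      rcases Fin.eq_self_or_eq_succAbove i j with h | ⟨k, h⟩
      · rw [h]
        exact h1
      · rw [h]
        exact h2 k
  rw [hpre, (volume_preserving_piFinSuccAbove (fun _ : Fin (n + 1) => ℝ) i).measure_preimage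
    hB.nullMeasurableSet, Measure.volume_eq_prod, Measure.prod_apply_symm hB]
  have hY : volume {y : Fin n → ℝ | ∀ j, 1 / R ≤ y j ∧ y j ≤ R} ≤ ENNReal.ofReal (R ^ n) := by
    have h1 : {y : Fin n → ℝ | ∀ j, 1 / R ≤ y j ∧ y j ≤ R} ⊆ Icc (fun _ => 0) (fun _ => R) := by
      intro y hy
      exact ⟨fun j => le_trans (by positivity) (hy j).1, fun j => (hy j).2⟩
    refine (measure_mono h1).trans ?_
    rw [Real.volume_Icc_pi]
    simp only [sub_zero, Finset.prod_const, Finset.card_univ, Fintype.card_fin]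
    rw [ENNReal.ofReal_pow hR0.le]
  have hYm : MeasurableSet {y : Fin n → ℝ | ∀ j, 1 / R ≤ y j ∧ y j ≤ R} := by
    have : {y : Fin n → ℝ | ∀ j, 1 / R ≤ y j ∧ y j ≤ R} =
        ⋂ j, {y : Fin n → ℝ | 1 / R ≤ y j ∧ y j ≤ R} := by
      ext p
      simp only [mem_ofPred_eq, mem_iInter]
    rw [this]
    exact MeasurableSet.iInter fun j =>
      (measurableSet_le measurable_const (measurable_pi_apply j)).inter
        (measurableSet_le (measurable_pi_apply j) measurable_const)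
  calc ∫⁻ y, volume ((fun x => (x, y)) ⁻¹' B)
      ≤ ∫⁻ y, {y : Fin n → ℝ | ∀ j, 1 / R ≤ y j ∧ y j ≤ R}.indicator
          (fun _ => ENNReal.ofReal (ε * R ^ 3)) y := by
        refine lintegral_mono fun y => ?_
        by_cases hy : y ∈ {y : Fin n → ℝ | ∀ j, 1 / R ≤ y j ∧ y j ≤ R}
        · rw [indicator_of_mem hy]
          refine le_trans (measure_mono ?_)
            (slice R ε (∑ j, (m (i.succAbove j) : ℝ) / y j ^ 2) (m i) hR0 hi)
          intro x hx
          rw [hBdef] at hx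
          exact ⟨hx.1, hx.2.2⟩
        · rw [indicator_of_notMem hy]
          refine le_of_eq ?_
          rw [show (fun x : ℝ => (x, y)) ⁻¹' B = ∅ from ?_, measure_empty]
          refine eq_empty_of_forall_notMem fun x hx => hy ?_
          rw [hBdef] at hx
          exact hx.2.1
    _ = ENNReal.ofReal (ε * R ^ 3) * volume {y : Fin n → ℝ | ∀ j, 1 / R ≤ y j ∧ y j ≤ R} := by
        rw [lintegral_indicator_const hYm]
    _ ≤ ENNReal.ofReal (ε * R ^ 3) * ENNReal.ofReal (R ^ n) := by gcongr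

/-- The relations of size at most `k`. -/
noncomputable def rel (N k : ℕ) : Finset (Fin N → ℤ) :=
  (Fintype.piFinset fun _ => Finset.Icc (-(k : ℤ)) k).filter (fun m => m ≠ 0)

theorem rel_card (N k : ℕ) : ((rel N k).card : ℝ) ≤ 2 ^ N * ((k : ℝ) + 1) ^ N := by
  have h1 : (rel N k).card ≤ (2 * k + 1) ^ N := by
    refine (Finset.card_filter_le _ _).trans ?_
    rw [Fintype.card_piFinset]
    simp only [Int.card_Icc, Finset.prod_const, Finset.card_univ, Fintype.card_fin]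
    refine Nat.pow_le_pow_left ?_ N
    omega
  have h2 : ((rel N k).card : ℝ) ≤ (2 * (k : ℝ) + 1) ^ N := by exact_mod_cast h1
  refine h2.trans ?_
  rw [← mul_pow]
  exact pow_le_pow_left₀ (by positivity) (by linarith) N

/-- The exceptional set at the level `k`. -/
def Bad (N : ℕ) (R : ℝ) (k : ℕ) : Set (Fin N → ℝ) :=
  ⋃ m ∈ rel N k, Ex N R (1 / ((k : ℝ) + 1) ^ (N + 2)) m

theorem Bad_vol (n : ℕ) (R : ℝ) (hR : 1 ≤ R) (k : ℕ) :
    volume (Bad (n + 1) R k) ≤
      ENNReal.ofReal ((2 ^ (n + 1) * R ^ 3 * R ^ n) * (1 / ((k : ℝ) + 1) ^ 2)) := by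
  have hR0 : 0 < R := by linarith
  unfold Bad
  refine (measure_biUnion_finset_le _ _).trans ?_
  calc ∑ m ∈ rel (n + 1) k, volume (Ex (n + 1) R (1 / ((k : ℝ) + 1) ^ (n + 1 + 2)) m)
      ≤ ∑ _m ∈ rel (n + 1) k, ENNReal.ofReal ((1 / ((k : ℝ) + 1) ^ (n + 1 + 2) * R ^ 3) * R ^ n) := by
        refine Finset.sum_le_sum fun m hm => ?_
        rw [ENNReal.ofReal_mul (by positivity)]
        exact Ex_vol n R _ m hR (Finset.mem_filter.1 hm).2
    _ = ENNReal.ofReal (((rel (n + 1) k).card : ℝ) *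
          ((1 / ((k : ℝ) + 1) ^ (n + 1 + 2) * R ^ 3) * R ^ n)) := by
        rw [Finset.sum_const, nsmul_eq_mul,
          ENNReal.ofReal_mul (p := ((rel (n + 1) k).card : ℝ)) (Nat.cast_nonneg _),
          ENNReal.ofReal_natCast]
    _ ≤ _ := by
        refine ENNReal.ofReal_le_ofReal ?_
        have h1 := rel_card (n + 1) k
        calc ((rel (n + 1) k).card : ℝ) * ((1 / ((k : ℝ) + 1) ^ (n + 1 + 2) * R ^ 3) * R ^ n)
            ≤ (2 ^ (n + 1) * ((k : ℝ) + 1) ^ (n + 1)) *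
              ((1 / ((k : ℝ) + 1) ^ (n + 1 + 2) * R ^ 3) * R ^ n) :=
              mul_le_mul_of_nonneg_right h1 (by positivity)
          _ = (2 ^ (n + 1) * R ^ 3 * R ^ n) * (1 / ((k : ℝ) + 1) ^ 2) := by
              have hk : ((k : ℝ) + 1) ≠ 0 := by positivity
              rw [pow_add ((k : ℝ) + 1) (n + 1) 2]
              field_simp

theorem ae_good (n : ℕ) (R : ℝ) (hR : 1 ≤ R) :
    ∀ᵐ l : Fin (n + 1) → ℝ, ∀ᶠ k in atTop, l ∉ Bad (n + 1) R k := by
  refine ae_eventually_notMem ?_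
  have hs : Summable fun k : ℕ => (2 ^ (n + 1) * R ^ 3 * R ^ n) * (1 / ((k : ℝ) + 1) ^ 2) := by
    refine Summable.mul_left _ ?_
    have h := (summable_nat_add_iff 1).2 (Real.summable_one_div_nat_pow.2 (by norm_num : 1 < 2))
    refine h.congr fun k => ?_
    push_cast
    rfl
  refine ne_top_of_le_ne_top hs.tsum_ofReal_ne_top ?_
  exact ENNReal.tsum_le_tsum fun k => Bad_vol n R hR k

/-- DIN -/
theorem din : DinStmt := by
  intro N hN
  obtain ⟨n, rfl⟩ : ∃ n, N = n + 1 := ⟨N - 1, by omega⟩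
  have hall : ∀ᵐ l : Fin (n + 1) → ℝ, ∀ r : ℕ, ∀ᶠ k in atTop, l ∉ Bad (n + 1) ((r : ℝ) + 1) k := by
    rw [ae_all_iff]
    intro r
    exact ae_good n _ (by linarith [r.cast_nonneg (α := ℝ)])
  filter_upwards [hall] with l hl hpos
  -- choice of the bound
  obtain ⟨r, hr⟩ : ∃ r : ℕ, ∀ j, 1 / ((r : ℝ) + 1) ≤ l j ∧ l j ≤ (r : ℝ) + 1 := by
    have h1 : ∀ j, ∃ r : ℕ, 1 / l j ≤ r ∧ l j ≤ r := by
      intro j
      obtain ⟨a, ha⟩ := exists_nat_ge (1 / l j)
      obtain ⟨b, hb⟩ := exists_nat_ge (l j)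
      refine ⟨max a b, ha.trans ?_, hb.trans ?_⟩
      · exact_mod_cast le_max_left a b
      · exact_mod_cast le_max_right a b
    choose f hf using h1
    refine ⟨∑ j, f j, fun j => ?_⟩
    have h2 : ((f j : ℕ) : ℝ) ≤ ((∑ j, f j : ℕ) : ℝ) := by
      exact_mod_cast Finset.single_le_sum (f := f) (fun _ _ => Nat.zero_le _) (Finset.mem_univ j)
    have hj := hpos j
    refine ⟨?_, ?_⟩
    · rw [div_le_iff₀ (by positivity)]
      have h3 : 1 / l j ≤ ((∑ j, f j : ℕ) : ℝ) + 1 := by linarith [(hf j).1]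
      rw [div_le_iff₀ hj] at h3
      linarith
    · linarith [(hf j).2]
  obtain ⟨k0, hk0⟩ := eventually_atTop.1 (hl r)
  refine ⟨1 / ((k0 : ℝ) + 1) ^ (n + 1 + 2), by positivity, n + 1 + 2, ?_⟩
  intro m hm
  obtain ⟨s, hs⟩ : ∃ s : ℕ, s = ∑ i, (m i).natAbs := ⟨_, rfl⟩
  have hs' : ∑ i, |(m i : ℝ)| = (s : ℝ) := by
    rw [hs]
    push_cast
    refine Finset.sum_congr rfl fun i _ => ?_
    rw [Nat.cast_natAbs, Int.cast_abs]
  rw [hs']
  have h1 := hk0 (max k0 s) (le_max_left _ _)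
  by_contra hcon
  push Not at hcon
  apply h1
  unfold Bad
  simp only [mem_iUnion]
  refine ⟨m, ?_, ?_⟩
  · unfold rel
    rw [Finset.mem_filter, Fintype.mem_piFinset]
    refine ⟨fun i => ?_, hm⟩
    rw [Finset.mem_Icc]
    have h2 : (m i).natAbs ≤ s := by
      rw [hs]
      exact Finset.single_le_sum (f := fun i => (m i).natAbs) (fun _ _ => Nat.zero_le _)
        (Finset.mem_univ i)
    have h3 : s ≤ max k0 s := le_max_right _ _
    omega
  · refine ⟨hr, lt_of_lt_of_le hcon ?_⟩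
    rw [div_div, ← mul_pow]
    refine one_div_le_one_div_of_le (by positivity) ?_
    refine pow_le_pow_left₀ (by positivity) ?_ _
    have h4 : ((max k0 s : ℕ) : ℝ) ≤ (k0 : ℝ) + s := by
      exact_mod_cast max_le (Nat.le_add_right k0 s) (Nat.le_add_left s k0)
    have h5 : (0 : ℝ) ≤ k0 := Nat.cast_nonneg _
    have h6 : (0 : ℝ) ≤ s := Nat.cast_nonneg _
    nlinarith [mul_nonneg h5 h6]

end Pool.Agent.BOX.H91
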