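import Pool.Agent.BOX.StmtsG

/-!
# Squad BOX, row SCC: the sine series is of class `C²`
-/

namespace Pool.Agent.BOX.H91

open Set Filter Topology MeasureTheory

noncomputable section

variable {N : ℕ}

/-- Products of sines with phases. -/
def PP (b φ x : Fin N → ℝ) : ℝ := ∏ i, Real.sin (b i * x i + φ i)

/-- The phases after a derivative in the direction `j`. -/
def sh (φ : Fin N → ℝ) (j : Fin N) : Fin N → ℝ := φ + Pi.single j (Real.pi / 2)

theorem PP_le (b φ x : Fin N → ℝ) : |PP b φ x| ≤ 1 := by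
  unfold PP
  rw [Finset.abs_prod]
  exact Finset.prod_le_one (fun _ _ => abs_nonneg _) fun _ _ => Real.abs_sin_le_one _

theorem PP_continuous (b φ : Fin N → ℝ) : Continuous (PP b φ) := by
  unfold PP
  fun_prop

/-- The projection to the coordinate `j` of the space variable. -/
def pj (j : Fin N) : (ℝ × (Fin N → ℝ)) →L[ℝ] ℝ :=
  (ContinuousLinearMap.proj j).comp (ContinuousLinearMap.snd ℝ ℝ (Fin N → ℝ))

theorem PP_shift (b φ x : Fin N → ℝ) (j : Fin N) :
    PP b (sh φ j) x =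
      (∏ i ∈ Finset.univ.erase j, Real.sin (b i * x i + φ i)) * Real.cos (b j * x j + φ j) := by
  unfold PP sh
  rw [← Finset.mul_prod_erase Finset.univ _ (Finset.mem_univ j), mul_comm]
  congr 1
  · refine Finset.prod_congr rfl fun i hi => ?_
    rw [Pi.add_apply, Pi.single_eq_of_ne (Finset.ne_of_mem_erase hi), add_zero]
  · rw [Pi.add_apply, Pi.single_eq_same, ← add_assoc, Real.sin_add_pi_div_two]

theorem PP_deriv (b φ : Fin N → ℝ) (q : ℝ × (Fin N → ℝ)) :
    HasFDerivAt (fun q : ℝ × (Fin N → ℝ) => PP b φ q.2)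
      (∑ j, (b j * PP b (sh φ j) q.2) • pj j) q := by
  have h1 : ∀ i ∈ (Finset.univ : Finset (Fin N)),
      HasFDerivAt (fun q : ℝ × (Fin N → ℝ) => Real.sin (b i * q.2 i + φ i))
        (Real.cos (b i * q.2 i + φ i) • (b i • pj i)) q := by
    intro i _
    have h2 : HasFDerivAt (fun q : ℝ × (Fin N → ℝ) => q.2 i) (pj i) q := (pj i).hasFDerivAt
    have h3 : HasFDerivAt (fun q : ℝ × (Fin N → ℝ) => b i * q.2 i + φ i) (b i • pj i) q :=
      (h2.const_mul (b i)).add_const (φ i)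
    exact (Real.hasDerivAt_sin _).comp_hasFDerivAt q h3
  have h4 := HasFDerivAt.finsetProd h1
  refine h4.congr_fderiv ?_
  refine Finset.sum_congr rfl fun i _ => ?_
  rw [PP_shift, smul_smul, smul_smul]
  congr 1
  ring

/-- The half space. -/
def UU (N : ℕ) (T : ℝ) : Set (ℝ × (Fin N → ℝ)) := {q | T < q.1}

theorem UU_open (T : ℝ) : IsOpen (UU N T) := isOpen_lt continuous_const continuous_fst

theorem UU_preconn (T : ℝ) : IsPreconnected (UU N T) := by
  have h : Convex ℝ (UU N T) := by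
    have : UU N T = (ContinuousLinearMap.fst ℝ ℝ (Fin N → ℝ)) ⁻¹' (Ioi T) := rfl
    rw [this]
    exact (convex_Ioi T).linear_preimage (ContinuousLinearMap.fst ℝ ℝ (Fin N → ℝ)).toLinearMap
  exact h.isPreconnected

section main

variable {ι : Type} (b : ι → Fin N → ℝ) (φ : Fin N → ℝ)

/-- The series. -/
def GG (h : ι → ℝ → ℝ) (q : ℝ × (Fin N → ℝ)) : ℝ := ∑' k, h k q.1 * PP (b k) φ q.2

theorem GG_cont {T : ℝ} {h : ι → ℝ → ℝ} {u : ι → ℝ} (hu : Summable u)
    (hb : ∀ k, ∀ t > T, |h k t| ≤ u k) (hc : ∀ k, ContinuousOn (h k) (Ioi T)) :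
    ContinuousOn (GG b φ h) (UU N T) := by
  unfold GG
  refine continuousOn_tsum (fun k => ?_) hu fun k q hq => ?_
  · exact ((hc k).comp continuousOn_fst fun q hq => hq).mul
      ((PP_continuous (b k) φ).comp continuous_snd).continuousOn
  · rw [Real.norm_eq_abs, abs_mul]
    have h1 := hb k q.1 hq
    have h2 := PP_le (b k) φ q.2
    have h3 := abs_nonneg (h k q.1)
    nlinarith [abs_nonneg (PP (b k) φ q.2)]

/-- The derivative of the series. -/
def LL (h h' : ι → ℝ → ℝ) (q : ℝ × (Fin N → ℝ)) : (ℝ × (Fin N → ℝ)) →L[ℝ] ℝ :=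
  GG b φ h' q • ContinuousLinearMap.fst ℝ ℝ (Fin N → ℝ) +
    ∑ j, GG b (sh φ j) (fun k t => h k t * b k j) q • pj j

theorem GG_summable {T : ℝ} {h : ι → ℝ → ℝ} {u : ι → ℝ} (hu : Summable u)
    (hb : ∀ k, ∀ t > T, |h k t| ≤ u k) (q : ℝ × (Fin N → ℝ)) (hq : q ∈ UU N T) :
    Summable fun k => h k q.1 * PP (b k) φ q.2 := by
  refine Summable.of_norm_bounded hu fun k => ?_
  rw [Real.norm_eq_abs, abs_mul]
  have h1 := hb k q.1 hq
  have h2 := PP_le (b k) φ q.2
  have h3 := abs_nonneg (h k q.1)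
  nlinarith [abs_nonneg (PP (b k) φ q.2)]

theorem GG_hasSum {T : ℝ} {h : ι → ℝ → ℝ} {u : ι → ℝ} (hu : Summable u)
    (hb : ∀ k, ∀ t > T, |h k t| ≤ u k) (q : ℝ × (Fin N → ℝ)) (hq : q ∈ UU N T) :
    HasSum (fun k => h k q.1 * PP (b k) φ q.2) (GG b φ h q) :=
  (GG_summable b φ hu hb q hq).hasSum

theorem GG_hasSum_smul {T : ℝ} {h : ι → ℝ → ℝ} {u : ι → ℝ} (hu : Summable u)
    (hb : ∀ k, ∀ t > T, |h k t| ≤ u k) (q : ℝ × (Fin N → ℝ)) (hq : q ∈ UU N T)
    (A : (ℝ × (Fin N → ℝ)) →L[ℝ] ℝ) :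
    HasSum (fun k => (h k q.1 * PP (b k) φ q.2) • A) (GG b φ h q • A) :=
  (GG_hasSum b φ hu hb q hq).smul_const A

/-- The derivative of one term. -/
def FF (h h' : ι → ℝ → ℝ) (k : ι) (q : ℝ × (Fin N → ℝ)) : (ℝ × (Fin N → ℝ)) →L[ℝ] ℝ :=
  (h' k q.1 * PP (b k) φ q.2) • ContinuousLinearMap.fst ℝ ℝ (Fin N → ℝ) +
    ∑ j, (h k q.1 * b k j * PP (b k) (sh φ j) q.2) • pj j

theorem FF_deriv {h h' : ι → ℝ → ℝ} (k : ι) (q : ℝ × (Fin N → ℝ))
    (hd : HasDerivAt (h k) (h' k q.1) q.1) :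
    HasFDerivAt (fun q : ℝ × (Fin N → ℝ) => h k q.1 * PP (b k) φ q.2) (FF b φ h h' k q) q := by
  have h1 : HasFDerivAt (fun q : ℝ × (Fin N → ℝ) => h k q.1)
      (h' k q.1 • ContinuousLinearMap.fst ℝ ℝ (Fin N → ℝ)) q :=
    hd.comp_hasFDerivAt q (ContinuousLinearMap.fst ℝ ℝ (Fin N → ℝ)).hasFDerivAt
  have h2 := h1.mul (PP_deriv (b k) φ q)
  refine h2.congr_fderiv ?_
  unfold FF
  rw [Finset.smul_sum, add_comm, smul_smul, mul_comm (PP (b k) φ q.2)]
  congr 1
  refine Finset.sum_congr rfl fun j _ => ?_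
  rw [smul_smul, mul_assoc]

theorem FF_norm {h h' : ι → ℝ → ℝ} (k : ι) (q : ℝ × (Fin N → ℝ)) {u : ℝ}
    (hb' : |h' k q.1| ≤ u) (hbj : ∀ j, |h k q.1 * b k j| ≤ u) :
    ‖FF b φ h h' k q‖ ≤ u * 1 + ∑ _j : Fin N, u * 1 := by
  unfold FF
  refine (norm_add_le _ _).trans (add_le_add ?_ ?_)
  · rw [norm_smul, Real.norm_eq_abs, abs_mul]
    have h0' := abs_nonneg (h' k q.1)
    have h1 : |h' k q.1| * |PP (b k) φ q.2| ≤ u := by
      nlinarith [PP_le (b k) φ q.2, abs_nonneg (PP (b k) φ q.2)]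
    exact mul_le_mul h1 (ContinuousLinearMap.norm_fst_le ℝ ℝ (Fin N → ℝ)) (norm_nonneg _)
      (h0'.trans hb')
  · refine (norm_sum_le _ _).trans (Finset.sum_le_sum fun j _ => ?_)
    rw [norm_smul, Real.norm_eq_abs, abs_mul]
    have h0 := hbj j
    have h0' := abs_nonneg (h k q.1 * b k j)
    have h1 : |h k q.1 * b k j| * |PP (b k) (sh φ j) q.2| ≤ u := by
      nlinarith [PP_le (b k) (sh φ j) q.2,
        abs_nonneg (PP (b k) (sh φ j) q.2)]
    refine mul_le_mul h1 ?_ (norm_nonneg _) (h0'.trans h0)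
    refine ContinuousLinearMap.opNorm_le_bound _ zero_le_one fun x => ?_
    rw [one_mul]
    exact (norm_le_pi_norm x.2 j).trans (norm_snd_le x)

theorem FF_hasSum {T : ℝ} {h h' : ι → ℝ → ℝ} {u : ι → ℝ} (hu : Summable u)
    (hb' : ∀ k, ∀ t > T, |h' k t| ≤ u k)
    (hbj : ∀ k, ∀ t > T, ∀ j, |h k t * b k j| ≤ u k) (q : ℝ × (Fin N → ℝ)) (hq : q ∈ UU N T) :
    HasSum (fun k => FF b φ h h' k q) (LL b φ h h' q) := by
  unfold FF LL
  refine HasSum.add ?_ ?_
  · exact GG_hasSum_smul b φ hu hb' q hq (ContinuousLinearMap.fst ℝ ℝ (Fin N → ℝ))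
  · refine hasSum_sum ?_
    intro j _
    exact GG_hasSum_smul b (sh φ j) (h := fun k t => h k t * b k j) hu
      (fun k t ht => hbj k t ht j) q hq (pj j)

theorem GG_deriv {T : ℝ} {h h' : ι → ℝ → ℝ} {u : ι → ℝ} (hu : Summable u)
    (hb : ∀ k, ∀ t > T, |h k t| ≤ u k) (hb' : ∀ k, ∀ t > T, |h' k t| ≤ u k)
    (hbj : ∀ k, ∀ t > T, ∀ j, |h k t * b k j| ≤ u k)
    (hd : ∀ k, ∀ t > T, HasDerivAt (h k) (h' k t) t) (q : ℝ × (Fin N → ℝ)) (hq : q ∈ UU N T) :
    HasFDerivAt (GG b φ h) (LL b φ h h' q) q := by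
  have hsum : Summable fun k => u k * 1 + ∑ _j : Fin N, u k * 1 := by
    refine (hu.mul_right 1).add ?_
    exact summable_sum fun _ _ => hu.mul_right 1
  have h3 : HasFDerivAt (fun q : ℝ × (Fin N → ℝ) => ∑' k, h k q.1 * PP (b k) φ q.2)
      (∑' k, FF b φ h h' k q) q :=
    hasFDerivAt_tsum_of_isPreconnected hsum (UU_open T) (UU_preconn T)
      (fun k q hq => FF_deriv b φ k q (hd k q.1 hq))
      (fun k q hq => FF_norm b φ k q (hb' k q.1 hq) (hbj k q.1 hq)) hq
      (GG_summable b φ hu hb q hq) hq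
  rw [(FF_hasSum b φ hu hb' hbj q hq).tsum_eq] at h3
  exact h3

theorem GG_C1 {T : ℝ} {h h' : ι → ℝ → ℝ} {u : ι → ℝ} (hu : Summable u)
    (hb : ∀ k, ∀ t > T, |h k t| ≤ u k) (hb' : ∀ k, ∀ t > T, |h' k t| ≤ u k)
    (hbj : ∀ k, ∀ t > T, ∀ j, |h k t * b k j| ≤ u k)
    (hd : ∀ k, ∀ t > T, HasDerivAt (h k) (h' k t) t) (hc : ∀ k, ContinuousOn (h' k) (Ioi T)) :
    ContDiffOn ℝ 1 (GG b φ h) (UU N T) := by
  have hc0 : ∀ k, ContinuousOn (h k) (Ioi T) := fun k t ht =>
    (hd k t ht).continuousAt.continuousWithinAt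
  rw [show (1 : WithTop ℕ∞) = 0 + 1 from rfl, contDiffOn_succ_iff_fderiv_of_isOpen (UU_open T)]
  refine ⟨fun q hq => (GG_deriv b φ hu hb hb' hbj hd q hq).differentiableAt.differentiableWithinAt,
    fun h => by simp at h, ?_⟩
  rw [contDiffOn_zero]
  have h1 : ContinuousOn (LL b φ h h') (UU N T) := by
    unfold LL
    refine ContinuousOn.add ?_ ?_
    · exact (GG_cont b φ hu hb' hc).smul continuousOn_const
    · refine continuousOn_finsetSum _ fun j _ => ?_
      exact (GG_cont b _ hu (fun k t ht => hbj k t ht j)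
        fun k => (hc0 k).mul continuousOn_const).smul continuousOn_const
  exact h1.congr fun q hq => (GG_deriv b φ hu hb hb' hbj hd q hq).fderiv

end main

/-- SCC -/
theorem scc : SccStmt := by
  intro N l c T a a' a'' D hl hc hD hbd hder hcont
  obtain ⟨b, hb⟩ : ∃ b : (Fin N → ℤ) → Fin N → ℝ, b = fun k i => Real.pi * k i / l i := ⟨_, rfl⟩
  obtain ⟨M, hM⟩ : ∃ M : ℝ, M = ∑ i, Real.pi / l i := ⟨_, rfl⟩
  have hM0 : 0 ≤ M := by
    rw [hM]
    exact Finset.sum_nonneg fun i _ => div_nonneg Real.pi_pos.le (hl i).le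
  obtain ⟨s, hs⟩ : ∃ s : (Fin N → ℤ) → ℝ, s = fun k => 1 + ∑ i, |(k i : ℝ)| := ⟨_, rfl⟩
  have hs1 : ∀ k, 1 ≤ s k := by
    intro k
    rw [hs]
    have : 0 ≤ ∑ i, |(k i : ℝ)| := Finset.sum_nonneg fun i _ => abs_nonneg _
    linarith
  have hw : ∀ k, w2 k = s k * s k := by
    intro k
    rw [hs]
    unfold w2
    ring
  have hbs : ∀ k i, |b k i| ≤ M * s k := by
    intro k i
    rw [hb]
    simp only
    rw [abs_div, abs_mul, abs_of_pos Real.pi_pos, abs_of_pos (hl i), mul_div_right_comm]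
    have h1 : Real.pi / l i ≤ M := by
      rw [hM]
      exact Finset.single_le_sum (f := fun i => Real.pi / l i)
        (fun i _ => div_nonneg Real.pi_pos.le (hl i).le) (Finset.mem_univ i)
    have h2 : |(k i : ℝ)| ≤ s k := by
      rw [hs]
      have := Finset.single_le_sum (f := fun i => |(k i : ℝ)|)
        (fun i _ => abs_nonneg _) (Finset.mem_univ i)
      linarith
    exact mul_le_mul h1 h2 (abs_nonneg _) hM0
  have hD0 : ∀ k, 0 ≤ D k := fun k =>
    (abs_nonneg _).trans (hbd k (T + 1) (by linarith)).1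
  obtain ⟨u, hu⟩ : ∃ u : (Fin N → ℤ) → ℝ, u = fun k => (1 + M) ^ 2 * (D k * w2 k) := ⟨_, rfl⟩
  have hus : Summable u := by
    rw [hu]
    exact hD.mul_left _
  -- bounds
  have e0 : ∀ k x, |x| ≤ D k → |x| ≤ u k := by
    intro k x hx
    rw [hu]
    simp only
    rw [hw]
    have h1 := hs1 k
    have h2 : 1 ≤ s k * s k := by nlinarith
    have h3 : D k ≤ D k * (s k * s k) := le_mul_of_one_le_right (hD0 k) h2
    have h4 : D k * (s k * s k) ≤ (1 + M) ^ 2 * (D k * (s k * s k)) := by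
      refine le_mul_of_one_le_left (mul_nonneg (hD0 k) (by nlinarith)) ?_
      nlinarith
    linarith
  have e0' : ∀ k x, |x| ≤ D k * w2 k → |x| ≤ u k := by
    intro k x hx
    rw [hu]
    simp only
    refine hx.trans (le_mul_of_one_le_left ?_ (by nlinarith))
    exact (abs_nonneg _).trans hx
  have e1 : ∀ k x j, |x| ≤ D k → |x * b k j| ≤ u k := by
    intro k x j hx
    rw [hu]
    simp only
    rw [hw, abs_mul]
    have h1 := hs1 k
    have h2 := hbs k j
    have h3 : |x| * |b k j| ≤ D k * (M * s k) :=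
      mul_le_mul hx h2 (abs_nonneg _) (hD0 k)
    have h4 : D k * (M * s k) ≤ D k * ((1 + M) ^ 2 * (s k * s k)) := by
      refine mul_le_mul_of_nonneg_left ?_ (hD0 k)
      refine mul_le_mul ?_ ?_ (by linarith) (by positivity)
      · nlinarith
      · nlinarith
    linarith
  have e2 : ∀ k x i j, |x| ≤ D k → |x * b k i * b k j| ≤ u k := by
    intro k x i j hx
    rw [hu]
    simp only
    rw [hw, abs_mul, abs_mul]
    have h1 := hs1 k
    have h3 : |x| * |b k i| * |b k j| ≤ D k * (M * s k) * (M * s k) :=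
      mul_le_mul (mul_le_mul hx (hbs k i) (abs_nonneg _) (hD0 k)) (hbs k j) (abs_nonneg _)
        (mul_nonneg (hD0 k) (mul_nonneg hM0 (by linarith)))
    have h4 : D k * (M * s k) * (M * s k) = M ^ 2 * (D k * (s k * s k)) := by ring
    have h5 : M ^ 2 * (D k * (s k * s k)) ≤ (1 + M) ^ 2 * (D k * (s k * s k)) := by
      refine mul_le_mul_of_nonneg_right ?_ (mul_nonneg (hD0 k) (by nlinarith))
      nlinarith
    linarith
  have ec : ∀ k x y, |x| ≤ y → |x * c k| ≤ y := by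
    intro k x y hx
    rw [abs_mul]
    have := hc k
    nlinarith [abs_nonneg x, abs_nonneg (c k)]
  have hca : ∀ k, ContinuousOn (a k) (Ioi T) := fun k t ht =>
    (hder k t ht).1.continuousAt.continuousWithinAt
  have hca' : ∀ k, ContinuousOn (a' k) (Ioi T) := fun k t ht =>
    (hder k t ht).2.continuousAt.continuousWithinAt
  -- the series
  have hser : (fun q : ℝ × (Fin N → ℝ) => ser l c a q.1 q.2) =
      GG b 0 (fun k t => a k t * c k) := by
    funext q
    unfold ser GG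
    refine tsum_congr fun k => ?_
    unfold Sn PP
    rw [hb]
    simp only [Pi.zero_apply, add_zero]
    ring
  rw [hser]
  have hF : ∀ q ∈ UU N T, HasFDerivAt (GG b 0 (fun k t => a k t * c k))
      (LL b 0 (fun k t => a k t * c k) (fun k t => a' k t * c k) q) q := by
    intro q hq
    refine GG_deriv b 0 hus ?_ ?_ ?_ ?_ q hq
    · exact fun k t ht => e0 k _ (ec k _ _ (hbd k t ht).1)
    · exact fun k t ht => e0 k _ (ec k _ _ (hbd k t ht).2.1)
    · exact fun k t ht j => e1 k _ j (ec k _ _ (hbd k t ht).1)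
    · exact fun k t ht => (hder k t ht).1.mul_const (c k)
  show ContDiffOn ℝ 2 _ (UU N T)
  rw [show (2 : WithTop ℕ∞) = 1 + 1 from one_add_one_eq_two.symm,
    contDiffOn_succ_iff_fderiv_of_isOpen (UU_open T)]
  refine ⟨fun q hq => (hF q hq).differentiableAt.differentiableWithinAt, fun h => by simp at h, ?_⟩
  have h1 : ContDiffOn ℝ 1 (LL b 0 (fun k t => a k t * c k) (fun k t => a' k t * c k))
      (UU N T) := by
    unfold LL
    refine ContDiffOn.add ?_ ?_
    · refine ContDiffOn.fun_smul ?_ contDiffOn_const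
      refine GG_C1 (h' := fun k t => a'' k t * c k) b 0 hus ?_ ?_ ?_ ?_ ?_
      · exact fun k t ht => e0 k _ (ec k _ _ (hbd k t ht).2.1)
      · exact fun k t ht => e0' k _ (ec k _ _ (hbd k t ht).2.2)
      · exact fun k t ht j => e1 k _ j (ec k _ _ (hbd k t ht).2.1)
      · exact fun k t ht => (hder k t ht).2.mul_const (c k)
      · exact fun k => (hcont k).mul continuousOn_const
    · refine ContDiffOn.sum fun j _ => ?_
      refine ContDiffOn.fun_smul ?_ contDiffOn_const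
      refine GG_C1 (h' := fun k t => a' k t * c k * b k j) b _ hus ?_ ?_ ?_ ?_ ?_
      · exact fun k t ht => e1 k _ j (ec k _ _ (hbd k t ht).1)
      · exact fun k t ht => e1 k _ j (ec k _ _ (hbd k t ht).2.1)
      · exact fun k t ht i => e2 k _ j i (ec k _ _ (hbd k t ht).1)
      · exact fun k t ht => ((hder k t ht).1.mul_const (c k)).mul_const (b k j)
      · exact fun k => ((hca' k).mul continuousOn_const).mul continuousOn_const
  exact h1.congr fun q hq => (hF q hq).fderiv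

end

end Pool.Agent.BOX.H91
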